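import Pool.Agent.Y233.Cd.F

set_option autoImplicit false

open MvPolynomial Pool.Agent.Helper346.Cd Pool.Agent.Y233.Cd

namespace Pool.Agent.H19TQ

/-- The field of the starting result `EveryPrimeEveryDegree`, with its anisotropic forms. -/
theorem exists_field (k₀ : Type) [Field k₀] [CharP k₀ 2] :
    ∃ (k : Type) (_ : Field k) (_ : Algebra k₀ k), CharP k 2 ∧
    CdLeOne Gal(SeparableClosure k/k) ∧
    (∀ f : Polynomial k, Irreducible f → ∃ t, f.natDegree = 2 ^ t) ∧
    ∃ c : k, c ≠ 0 ∧ c ≠ 1 ∧ ∀ n : ℕ, ∃ A : Fin (n + 1) → k,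
      ∀ x : Fin (n + 1) → k,
        ∑ i, A i * x i ^ 2 + c * ∑ i : Fin n, x i.castSucc * x i.succ = 0 → x = 0 := by
  have hpp : Nat.Prime 2 := Nat.prime_two
  have : Fact (Nat.Prime 2) := ⟨hpp⟩
  let κ := FractionRing (MvPolynomial ℕ k₀)
  let K0 := FractionRing (Polynomial κ)
  have : CharP κ 2 :=
    charP_of_injective_algebraMap (IsFractionRing.injective (MvPolynomial ℕ k₀) κ) 2
  have : CharP K0 2 :=
    charP_of_injective_algebraMap (IsFractionRing.injective (Polynomial κ) K0) 2
  obtain ⟨E, hE1, hE2⟩ := exists_maximal_prime_to 2 hpp K0 (SeparableClosure K0)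
  have : CharP E 2 := charP_of_injective_algebraMap (algebraMap K0 E).injective 2
  have hirr : ∀ f : Polynomial E, Irreducible f → ∃ t, f.natDegree = 2 ^ t :=
    irr_pow (fun M _ _ _ h => finrank_eq_one_of_prime_to hE2 M h)
  let toE : k₀ →+* E := (algebraMap K0 E).comp ((algebraMap (Polynomial κ) K0).comp
    (Polynomial.C.comp ((algebraMap (MvPolynomial ℕ k₀) κ).comp MvPolynomial.C)))
  let c : E := algebraMap K0 E (algebraMap (Polynomial κ) K0 Polynomial.X)
  have hc : c ≠ 0 := by
    show algebraMap K0 E (algebraMap (Polynomial κ) K0 Polynomial.X) ≠ 0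
    rw [ne_eq, map_eq_zero_iff _ (algebraMap K0 E).injective,
      map_eq_zero_iff _ (IsFractionRing.injective (Polynomial κ) K0)]
    exact Polynomial.X_ne_zero
  have hc1 : c ≠ 1 := by
    intro h
    have h1 : algebraMap K0 E (algebraMap (Polynomial κ) K0 Polynomial.X) =
      algebraMap K0 E (algebraMap (Polynomial κ) K0 1) := by rw [map_one, map_one]; exact h
    have h2 := IsFractionRing.injective (Polynomial κ) K0 ((algebraMap K0 E).injective h1)
    exact Polynomial.X_ne_C (1 : κ) (by rw [h2, map_one])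
  refine ⟨E, inferInstance, toE.toAlgebra, inferInstance, cdLeOne_of hE2, hirr, c, hc, hc1,
    fun n => ?_⟩
  let a : Fin (n + 1) → κ := fun i => algebraMap (MvPolynomial ℕ k₀) κ (X (i : ℕ))
  let A : Fin (n + 1) → E :=
    fun i => algebraMap K0 E (algebraMap (Polynomial κ) K0 (Polynomial.C (a i)))
  have hall : ∀ s : ℕ, 2 ^ s ∣ 2 → ∀ e ∈ closedPointDegrees (dform n 2 A c), 2 ^ s ∣ e := by
    rintro s hs e ⟨x, hx, hx0, rfl⟩
    exact dvd_pointField E hE1 n 2 s (by omega) hs a (indep_pow 2 k₀ n) x hx hx0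
  have hrat : ¬ HasRationalPoint (dform n 2 A c) := by
    intro h
    have h1 := hall 1 (by norm_num) 1 (rational_degree _ h)
    rw [pow_one] at h1
    exact hpp.one_lt.ne' (Nat.dvd_one.1 h1)
  refine ⟨A, fun x hx => ?_⟩
  by_contra hx0
  refine hrat ⟨x, hx0, ?_⟩
  have h2 := aeval_dform (k := E) (A := E) n 2 A c x
  rw [aeval_eq_eval] at h2
  have h3 : eval x (dform n 2 A c) = ∑ i, A i * x i ^ 2 +
      c * ∑ i : Fin n, x i.castSucc * x i.succ := by
    have := h2
    simpa using this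
  rw [h3]
  exact hx

end Pool.Agent.H19TQ
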