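import Mathlib

set_option autoImplicit false

open MvPolynomial

namespace Pool.Agent.H19TQ

/-- The forms `f`, `g` in `n + 1` variables define a smooth complete intersection of two quadrics
in `ℙⁿ` over `k`: they are quadratic forms and at each geometric point of `f = g = 0` the two
gradients are linearly independent (Jacobian criterion). -/
def IsSmoothIntersection {k : Type*} [Field k] {n : ℕ} (f g : MvPolynomial (Fin (n + 1)) k) :
    Prop :=
  f.IsHomogeneous 2 ∧ g.IsHomogeneous 2 ∧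
    ∀ x : Fin (n + 1) → AlgebraicClosure k, x ≠ 0 → aeval x f = 0 → aeval x g = 0 →
      LinearIndependent (AlgebraicClosure k)
        ![fun i => aeval x (pderiv i f), fun i => aeval x (pderiv i g)]

variable {k : Type*} [Field k]

/-- first form -/
noncomputable def fF (a : Fin 6 → k) (c : k) : MvPolynomial (Fin 6) k :=
  C (a 0) * X 0 ^ 2 + C (a 1) * X 1 ^ 2 + C (a 2) * X 2 ^ 2 + C (a 3) * X 3 ^ 2 +
    C (a 4) * X 4 ^ 2 + C (a 5) * X 5 ^ 2 + C c * (X 0 * X 1 + X 2 * X 3 + X 4 * X 5)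

/-- second form -/
noncomputable def gF (l : k) : MvPolynomial (Fin 6) k :=
  X 0 ^ 2 + X 2 ^ 2 + X 4 ^ 2 + X 2 * X 3 + C l * (X 4 * X 5)

theorem hom_sq (i : Fin 6) (b : k) : (C b * X i ^ 2 : MvPolynomial (Fin 6) k).IsHomogeneous 2 := by
  simpa using (isHomogeneous_C (Fin 6) b).mul ((isHomogeneous_X k i).pow 2)

theorem hom_mul (i j : Fin 6) : (X i * X j : MvPolynomial (Fin 6) k).IsHomogeneous 2 :=
  (isHomogeneous_X k i).mul (isHomogeneous_X k j)

theorem fF_hom (a : Fin 6 → k) (c : k) : (fF a c).IsHomogeneous 2 := by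
  unfold fF
  have h1 : (C c * (X 0 * X 1 + X 2 * X 3 + X 4 * X 5) : MvPolynomial (Fin 6) k).IsHomogeneous
      2 := by
    simpa using (isHomogeneous_C (Fin 6) c).mul
      (((hom_mul 0 1).add (hom_mul 2 3)).add (hom_mul 4 5))
  exact ((((((hom_sq 0 (a 0)).add (hom_sq 1 (a 1))).add (hom_sq 2 (a 2))).add
    (hom_sq 3 (a 3))).add (hom_sq 4 (a 4))).add (hom_sq 5 (a 5))).add h1

theorem gF_hom (l : k) : (gF l).IsHomogeneous 2 := by
  unfold gF
  have h1 : (C l * (X 4 * X 5) : MvPolynomial (Fin 6) k).IsHomogeneous 2 := by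
    simpa using (isHomogeneous_C (Fin 6) l).mul (hom_mul 4 5)
  exact (((((isHomogeneous_X k 0).pow 2).add ((isHomogeneous_X k 2).pow 2)).add
    ((isHomogeneous_X k 4).pow 2)).add (hom_mul 2 3)).add h1

variable {A : Type*} [Field A] [Algebra k A]

theorem aeval_fF (a : Fin 6 → k) (c : k) (x : Fin 6 → A) : aeval x (fF a c) =
    algebraMap k A (a 0) * x 0 ^ 2 + algebraMap k A (a 1) * x 1 ^ 2 +
    algebraMap k A (a 2) * x 2 ^ 2 + algebraMap k A (a 3) * x 3 ^ 2 +
    algebraMap k A (a 4) * x 4 ^ 2 + algebraMap k A (a 5) * x 5 ^ 2 +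
    algebraMap k A c * (x 0 * x 1 + x 2 * x 3 + x 4 * x 5) := by
  simp [fF]

theorem aeval_gF (l : k) (x : Fin 6 → A) : aeval x (gF l) =
    x 0 ^ 2 + x 2 ^ 2 + x 4 ^ 2 + x 2 * x 3 + algebraMap k A l * (x 4 * x 5) := by
  simp [gF]

theorem two_zero [CharP k 2] : (2 : A) = 0 := by
  have h : CharP A 2 := charP_of_injective_algebraMap (algebraMap k A).injective 2
  exact_mod_cast (CharP.cast_eq_zero A 2)

theorem grad_fF [CharP k 2] (a : Fin 6 → k) (c : k) (x : Fin 6 → A) :
    (fun i => aeval x (pderiv i (fF a c))) =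
      ![algebraMap k A c * x 1, algebraMap k A c * x 0, algebraMap k A c * x 3,
        algebraMap k A c * x 2, algebraMap k A c * x 5, algebraMap k A c * x 4] := by
  have h2 : (2 : A) = 0 := two_zero (k := k)
  funext i
  fin_cases i <;>
    simp [fF, pderiv_X, Derivation.leibniz, Derivation.leibniz_pow, h2]

theorem grad_gF [CharP k 2] (l : k) (x : Fin 6 → A) :
    (fun i => aeval x (pderiv i (gF l))) =
      ![0, 0, x 3, x 2, algebraMap k A l * x 5, algebraMap k A l * x 4] := by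
  have h2 : (2 : A) = 0 := two_zero (k := k)
  funext i
  fin_cases i <;>
    simp [gF, pderiv_X, Derivation.leibniz, Derivation.leibniz_pow, h2]

end Pool.Agent.H19TQ
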