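import Pool.Agent.H19TQ.A
import Pool.Agent.H19TQ.B

set_option autoImplicit false

open MvPolynomial Pool.Agent.Helper346.Cd

namespace Pool.Agent.H19TQ

/-- value of the first form -/
def val {A : Type*} [CommRing A] (a : Fin 6 → A) (c : A) (x : Fin 6 → A) : A :=
  a 0 * x 0 ^ 2 + a 1 * x 1 ^ 2 + a 2 * x 2 ^ 2 + a 3 * x 3 ^ 2 + a 4 * x 4 ^ 2 + a 5 * x 5 ^ 2 +
    c * (x 0 * x 1 + x 2 * x 3 + x 4 * x 5)

theorem smooth {k : Type*} [Field k] [CharP k 2] (a : Fin 6 → k) (c l : k) (hc : c ≠ 0)
    (hl0 : l ≠ 0) (hl1 : l ≠ 1) (hani : ∀ x : Fin 6 → k, val a c x = 0 → x = 0) :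
    IsSmoothIntersection (fF a c) (gF l) := by
  refine ⟨fF_hom a c, gF_hom l, fun x hx hF hG => ?_⟩
  have hinj := (algebraMap k (AlgebraicClosure k)).injective
  have h2 : (2 : AlgebraicClosure k) = 0 := two_zero (k := k)
  have hneg : ∀ y : AlgebraicClosure k, -y = y := fun y => by linear_combination (-y) * h2
  -- the values of `f` which do not vanish
  have ha1 : algebraMap k (AlgebraicClosure k) (a 1) ≠ 0 := by
    rw [ne_eq, map_eq_zero_iff _ hinj]
    intro h
    have := congrFun (hani ![0, 1, 0, 0, 0, 0] (by simp [val, h])) 1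
    simp at this
  have ha3 : algebraMap k (AlgebraicClosure k) (a 3) ≠ 0 := by
    rw [ne_eq, map_eq_zero_iff _ hinj]
    intro h
    have := congrFun (hani ![0, 0, 0, 1, 0, 0] (by simp [val, h])) 3
    simp at this
  have ha5 : algebraMap k (AlgebraicClosure k) (a 5) ≠ 0 := by
    rw [ne_eq, map_eq_zero_iff _ hinj]
    intro h
    have := congrFun (hani ![0, 0, 0, 0, 0, 1] (by simp [val, h])) 5
    simp at this
  have hb1 : algebraMap k (AlgebraicClosure k) (a 2 + a 3 + c) ≠ 0 := by
    rw [ne_eq, map_eq_zero_iff _ hinj]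
    intro h
    have := congrFun (hani ![0, 0, 1, 1, 0, 0] (by simpa [val] using h)) 3
    simp at this
  have hb2 : algebraMap k (AlgebraicClosure k) (a 4 * l ^ 2 + a 5 + c * l) ≠ 0 := by
    rw [ne_eq, map_eq_zero_iff _ hinj]
    intro h
    have := congrFun (hani ![0, 0, 0, 0, l, 1] (by simpa [val] using h)) 5
    simp at this
  have hc' : algebraMap k (AlgebraicClosure k) c ≠ 0 := by
    rwa [ne_eq, map_eq_zero_iff _ hinj]
  have hl0' : algebraMap k (AlgebraicClosure k) l ≠ 0 := by
    rwa [ne_eq, map_eq_zero_iff _ hinj]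
  have hl1' : algebraMap k (AlgebraicClosure k) l ≠ 1 := by
    intro h
    exact hl1 (hinj (by rw [h, map_one]))
  rw [aeval_fF] at hF
  rw [aeval_gF] at hG
  rw [map_add, map_add] at hb1
  rw [map_add, map_add, map_mul, map_mul, map_pow] at hb2
  rw [grad_fF, grad_gF, LinearIndependent.pair_iff]
  generalize algebraMap k (AlgebraicClosure k) c = C at *
  generalize algebraMap k (AlgebraicClosure k) l = L at *
  generalize algebraMap k (AlgebraicClosure k) (a 0) = A0 at *
  generalize algebraMap k (AlgebraicClosure k) (a 1) = A1 at *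
  generalize algebraMap k (AlgebraicClosure k) (a 2) = A2 at *
  generalize algebraMap k (AlgebraicClosure k) (a 3) = A3 at *
  generalize algebraMap k (AlgebraicClosure k) (a 4) = A4 at *
  generalize algebraMap k (AlgebraicClosure k) (a 5) = A5 at *
  intro s t hst
  have e0 : s * C * x 1 = 0 := by
    have := congrFun hst 0; simp at this; rcases this with h | h | h <;> simp [h]
  have e1 : s * C * x 0 = 0 := by
    have := congrFun hst 1; simp at this; rcases this with h | h | h <;> simp [h]
  have e2 : (s * C + t) * x 3 = 0 := by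
    have := congrFun hst 2; simp at this; linear_combination this
  have e3 : (s * C + t) * x 2 = 0 := by
    have := congrFun hst 3; simp at this; linear_combination this
  have e4 : (s * C + t * L) * x 5 = 0 := by
    have := congrFun hst 4; simp at this; linear_combination this
  have e5 : (s * C + t * L) * x 4 = 0 := by
    have := congrFun hst 5; simp at this; linear_combination this
  by_contra hcon
  apply hx
  have hzero : ∀ (p q : AlgebraicClosure k), p ≠ 0 → p * q = 0 → q = 0 := fun p q hp hpq =>
    (mul_eq_zero.1 hpq).resolve_left hp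
  by_cases hs : s = 0
  · have ht : t ≠ 0 := fun ht => hcon ⟨hs, ht⟩
    subst hs
    simp only [zero_mul, zero_add] at e2 e3 e4 e5
    have x3 := hzero _ _ ht e2
    have x2 := hzero _ _ ht e3
    have x5 := hzero _ _ (mul_ne_zero ht hl0') e4
    have x4 := hzero _ _ (mul_ne_zero ht hl0') e5
    have x0 : x 0 = 0 := by
      have : x 0 ^ 2 = 0 := by
        rw [x2, x3, x4, x5] at hG
        linear_combination hG
      exact pow_eq_zero_iff two_ne_zero |>.1 this
    have x1 : x 1 = 0 := by
      have : A1 * x 1 ^ 2 = 0 := by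
        rw [x0, x2, x3, x4, x5] at hF
        linear_combination hF
      exact pow_eq_zero_iff two_ne_zero |>.1 (hzero _ _ ha1 this)
    funext i
    fin_cases i <;> simp [x0, x1, x2, x3, x4, x5]
  · have hsC : s * C ≠ 0 := mul_ne_zero hs hc'
    have x1 := hzero _ _ hsC e0
    have x0 := hzero _ _ hsC e1
    by_cases h1 : s * C + t = 0
    · have ht : t ≠ 0 := by
        rintro rfl
        exact hsC (by linear_combination h1)
      have h3 : s * C + t * L ≠ 0 := by
        intro h3
        have h4 : t * (L - 1) = 0 := by linear_combination h3 - h1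
        rcases mul_eq_zero.1 h4 with h5 | h5
        · exact ht h5
        · exact hl1' (by linear_combination h5)
      have x5 := hzero _ _ h3 e4
      have x4 := hzero _ _ h3 e5
      have hx2 : x 2 * (x 2 + x 3) = 0 := by
        rw [x0, x4, x5] at hG
        linear_combination hG
      have hF' : A2 * x 2 ^ 2 + A3 * x 3 ^ 2 + C * (x 2 * x 3) = 0 := by
        rw [x0, x1, x4, x5] at hF
        linear_combination hF
      rcases mul_eq_zero.1 hx2 with h6 | h6
      · have x3 : x 3 = 0 := by
          have : A3 * x 3 ^ 2 = 0 := by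
            rw [h6] at hF'
            linear_combination hF'
          exact pow_eq_zero_iff two_ne_zero |>.1 (hzero _ _ ha3 this)
        funext i
        fin_cases i <;> simp [x0, x1, h6, x3, x4, x5]
      · have h7 : x 2 = x 3 := by
          have h8 : x 2 = - x 3 := by linear_combination h6
          rw [h8, hneg]
        have x3 : x 3 = 0 := by
          have : (A2 + A3 + C) * x 3 ^ 2 = 0 := by
            rw [h7] at hF'
            linear_combination hF'
          exact pow_eq_zero_iff two_ne_zero |>.1 (hzero _ _ hb1 this)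
        funext i
        fin_cases i <;> simp [x0, x1, h7, x3, x4, x5]
    · have x3 := hzero _ _ h1 e2
      have x2 := hzero _ _ h1 e3
      have hx4 : x 4 * (x 4 + L * x 5) = 0 := by
        rw [x0, x2, x3] at hG
        linear_combination hG
      have hF' : A4 * x 4 ^ 2 + A5 * x 5 ^ 2 + C * (x 4 * x 5) = 0 := by
        rw [x0, x1, x2, x3] at hF
        linear_combination hF
      rcases mul_eq_zero.1 hx4 with h6 | h6
      · have x5 : x 5 = 0 := by
          have : A5 * x 5 ^ 2 = 0 := by
            rw [h6] at hF'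
            linear_combination hF'
          exact pow_eq_zero_iff two_ne_zero |>.1 (hzero _ _ ha5 this)
        funext i
        fin_cases i <;> simp [x0, x1, x2, x3, h6, x5]
      · have h7 : x 4 = L * x 5 := by
          have h8 : x 4 = - (L * x 5) := by linear_combination h6
          rw [h8, hneg]
        have x5 : x 5 = 0 := by
          have : (A4 * L ^ 2 + A5 + C * L) * x 5 ^ 2 = 0 := by
            rw [h7] at hF'
            linear_combination hF'
          exact pow_eq_zero_iff two_ne_zero |>.1 (hzero _ _ hb2 this)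
        have x4 : x 4 = 0 := by rw [h7, x5, mul_zero]
        funext i
        fin_cases i <;> simp [x0, x1, x2, x3, x4, x5]

theorem main (k₀ : Type) [Field k₀] [CharP k₀ 2] :
    ∃ (k : Type) (_ : Field k) (_ : Algebra k₀ k), CharP k 2 ∧
    CdLeOne Gal(SeparableClosure k/k) ∧ ¬ IsSepClosed k ∧
    (∀ f : Polynomial k, Irreducible f → ∃ t, f.natDegree = 2 ^ t) ∧
    ∃ f g : MvPolynomial (Fin 6) k, IsSmoothIntersection f g ∧
      ∀ x : Fin 6 → k, aeval x f = 0 → x = 0 := by
  obtain ⟨k, _, _, hchar, hcd, hirr, c, hc0, hc1, hA⟩ := exists_field k₀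
  obtain ⟨a, ha⟩ := hA 5
  have h2 : (2 : k) = 0 := two_zero (k := k)
  let b : Fin 6 → k := ![a 0, a 1, a 0 + a 2, a 3, a 0 + a 2 + a 4, a 5]
  have hb : ∀ x : Fin 6 → k, val b c x = 0 → x = 0 := by
    intro x hx
    have h1 := ha ![x 0 + x 2 + x 4, x 1, x 2 + x 4, x 3, x 4, x 5] (by
      rw [Fin.sum_univ_six, Fin.sum_univ_five]
      simp only [val, b] at hx
      simp
      simp at hx
      linear_combination hx + (a 0 * (x 0 * x 2 + x 0 * x 4 + x 2 * x 4) + a 2 * (x 2 * x 4) +
        c * (x 1 * x 2 + x 1 * x 4 + x 3 * x 4)) * h2)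
    have y5 : x 5 = 0 := by simpa using congrFun h1 5
    have y4 : x 4 = 0 := by simpa using congrFun h1 4
    have y3 : x 3 = 0 := by simpa using congrFun h1 3
    have y2 : x 2 = 0 := by simpa [y4] using congrFun h1 2
    have y1 : x 1 = 0 := by simpa using congrFun h1 1
    have y0 : x 0 = 0 := by simpa [y4, y2] using congrFun h1 0
    funext i
    fin_cases i <;> simp [y0, y1, y2, y3, y4, y5]
  refine ⟨k, inferInstance, inferInstance, hchar, hcd, ?_, hirr, fF b c, gF c,
    smooth b c c hc0 hc0 hc1 hb, fun x hx => hb x ?_⟩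
  · intro hsep
    have hb4 : b 4 ≠ 0 := by
      intro h
      have := congrFun (hb ![0, 0, 0, 0, 1, 0] (by simp [val, h])) 4
      simp at this
    let P : Polynomial k := Polynomial.C (b 4) * Polynomial.X ^ 2 + Polynomial.C c *
      Polynomial.X + Polynomial.C (b 5)
    have hdeg : P.degree = 2 := Polynomial.degree_quadratic hb4
    have hder : P.derivative = Polynomial.C c := by
      have h4 : Polynomial.C (2 : k) = 0 := by rw [h2, map_zero]
      simp only [P, Polynomial.derivative_add, Polynomial.derivative_C_mul,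
        Polynomial.derivative_X_pow, Polynomial.derivative_X, Polynomial.derivative_C]
      simp [h2]
    have hPsep : P.Separable := by
      rw [Polynomial.separable_def, hder]
      exact ⟨0, Polynomial.C c⁻¹, by
        rw [zero_mul, zero_add, ← Polynomial.C_mul, inv_mul_cancel₀ hc0, Polynomial.C_1]⟩
    obtain ⟨z, hz⟩ := IsSepClosed.exists_root P (by rw [hdeg]; exact two_ne_zero) hPsep
    have h5 : b 4 * z ^ 2 + c * z + b 5 = 0 := by simpa [P] using hz
    have := congrFun (hb ![0, 0, 0, 0, z, 1] (by
      simp [val]; linear_combination h5)) 5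
    simp at this
  · rw [aeval_fF] at hx
    simpa [val] using hx

end Pool.Agent.H19TQ
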